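import Pool.Agent.Q52.Bohr

/-!
# Pythagorean triples in colourings of bounded Bohr dimension

A colouring of `[1, N]` with `r` colours is described by `d` linear phases modulo one if
`c n = F_ρ ((θ_1 n + α_1, …, θ_d n + α_d) mod 1)` for `n ≡ ρ (mod m)`, where on every line of `ℝ^d`
each colour of `F_ρ` occupies at most `P` intervals. The phases, the modulus and the functions `F_ρ`
may depend on `N` in an arbitrary way. If `3 r P (d + 1) ^ 2 ≤ log_2 (N / m)`, then there is a
monochromatic Pythagorean triple `(3 x, 4 x, 5 x)` in `[1, N]`. So a colouring of `[1, N]` with a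
bounded number of colours and without monochromatic Pythagorean triples has dimension at least
`c √(log N)`.
-/

set_option autoImplicit false

open Finset

namespace Pool.Agent.Results.MP_0f91f8_co.BohrDimensionColourings

/-- `T ⊆ ℝ` is a union of at most `P` intervals (of any kind) -/
def Intervals (P : ℕ) (T : Set ℝ) : Prop :=
  ∃ I : Fin P → Set ℝ, (∀ i, (I i).OrdConnected) ∧ T = ⋃ i, I i

/-- every line meets `S ⊆ ℝ^d` in at most `P` intervals -/
def LineSimple {d : ℕ} (P : ℕ) (S : Set (Fin d → ℝ)) : Prop :=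
  ∀ x v : Fin d → ℝ, Intervals P {t : ℝ | x + t • v ∈ S}

/-- the point of `[0,1)^d` attached to `n` by the phases `θ_i n + α_i` -/
noncomputable def point {d : ℕ} (θ α : Fin d → ℝ) (n : ℕ) : Fin d → ℝ :=
  fun i => Int.fract (θ i * n + α i)

/-- the colouring `c` of `[1, N]` is described by `d` linear phases, a modulus `m` and functions of
complexity `P` -/
def Described {κ : Type} (d P m N : ℕ) (c : ℕ → κ) : Prop :=
  ∃ (θ α : Fin d → ℝ) (F : ℕ → (Fin d → ℝ) → κ), (∀ ρ k, LineSimple P {x | F ρ x = k}) ∧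
    ∀ n ∈ Icc 1 N, c n = F (n % m) (point θ α n)

lemma main {κ : Type} [Fintype κ] {d P m N : ℕ} (hm : 0 < m) {c : ℕ → κ}
    (hc : Described d P m N c)
    (hN : m * (3 * 2 ^ ((2 * d + 1) * (Fintype.card κ * P))) ^ (d + 1) ≤ N) :
    ∃ x : ℕ, m ≤ x ∧ 5 * x ≤ N ∧ c (3 * x) = c (4 * x) ∧ c (4 * x) = c (5 * x) := by
  classical
  obtain ⟨θ, α, F, hF, hcF⟩ := hc
  set W : ℕ := (2 * d + 1) * (Fintype.card κ * P) with hW
  set M : ℕ := 3 * 2 ^ W with hM
  have hM0 : 0 < M := by positivity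
  obtain ⟨q, hq1, hq2, u, hu⟩ := Pool.Agent.Q52.Bohr.dirichlet (fun i => θ i * m) hM0
  have hMR : (0:ℝ) < M := by exact_mod_cast hM0
  -- the multiples of `m q`
  set v : Fin d → ℝ := fun i => θ i * m * q - u i with hv
  have hbound : ∀ t : ℕ, t ≤ M → 1 ≤ t → m * q * t ∈ Icc 1 N := by
    intro t ht ht1
    rw [mem_Icc]
    constructor
    · have : 0 < m * q * t := by positivity
      omega
    · calc m * q * t ≤ m * M ^ d * M := by gcongr
        _ = m * M ^ (d + 1) := by rw [pow_succ, mul_assoc]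
        _ ≤ N := hN
  have hpoint : ∀ t : ℕ, point θ α (m * q * t) = fun i => Int.fract (α i + t * v i) := by
    intro t
    funext i
    unfold point
    rw [Int.fract_eq_fract]
    exact ⟨t * u i, by simp only [hv]; push_cast; ring⟩
  have hcol : ∀ t : ℕ, t ≤ M → 1 ≤ t → c (m * q * t) = F 0 (fun i => Int.fract (α i + t * v i)) := by
    intro t ht ht1
    rw [hcF _ (hbound t ht ht1), hpoint, mul_assoc, Nat.mul_mod_right]
  -- the integral parts
  set K : ℕ → Fin d → ℤ := fun j i => ⌊α i + j * v i⌋ with hK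
  set φ : ℕ → ℕ := fun j => ∑ i, (K j i - K 0 i).natAbs with hφ
  have mono : ∀ j j' : ℕ, j ≤ j' → ∀ i, (K j i - K 0 i).natAbs ≤ (K j' i - K 0 i).natAbs ∧
      ((K j i - K 0 i).natAbs = (K j' i - K 0 i).natAbs → K j i = K j' i) := by
    intro j j' hjj i
    have hjR : (j:ℝ) ≤ j' := by exact_mod_cast hjj
    have hj0 : (0:ℝ) ≤ j := by positivity
    rcases le_total 0 (v i) with h | h
    · have a1 : K 0 i ≤ K j i := Int.floor_le_floor (by push_cast; nlinarith)
      have a2 : K j i ≤ K j' i := Int.floor_le_floor (by nlinarith)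
      constructor
      · omega
      · intro; omega
    · have a1 : K j i ≤ K 0 i := Int.floor_le_floor (by push_cast; nlinarith)
      have a2 : K j' i ≤ K j i := Int.floor_le_floor (by nlinarith)
      constructor
      · omega
      · intro; omega
  have φmono : ∀ j j' : ℕ, j ≤ j' → φ j ≤ φ j' := fun j j' h =>
    Finset.sum_le_sum fun i _ => (mono j j' h i).1
  have φinj : ∀ j j' : ℕ, j ≤ j' → φ j = φ j' → K j = K j' := by
    intro j j' h he
    funext i
    refine (mono j j' h i).2 ?_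
    exact (Finset.sum_eq_sum_iff_of_le fun i _ => (mono j j' h i).1).1 he i (mem_univ i)
  have hφM : ∀ j : ℕ, j ≤ M → φ j ≤ 2 * d := by
    intro j hj
    have hjM : (j:ℝ) ≤ M := by exact_mod_cast hj
    have h1 : ∀ i, (K j i - K 0 i).natAbs ≤ 2 := by
      intro i
      have e' : ((K j i - K 0 i).natAbs : ℝ) = |((K j i - K 0 i : ℤ) : ℝ)| := by
        rw [Nat.cast_natAbs, Int.cast_abs]
      have b1 := Int.floor_le (α i + j * v i)
      have b2 := Int.lt_floor_add_one (α i + j * v i)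
      have b3 := Int.floor_le (α i + (0:ℕ) * v i)
      have b4 := Int.lt_floor_add_one (α i + (0:ℕ) * v i)
      have b5 : |(j:ℝ) * v i| ≤ 1 := by
        rw [abs_mul, abs_of_nonneg (by positivity : (0:ℝ) ≤ j)]
        calc (j:ℝ) * |v i| ≤ M * (1 / M) := mul_le_mul hjM (hu i) (abs_nonneg _) (by positivity)
          _ = 1 := by field_simp
      have h2 : ((K j i - K 0 i).natAbs : ℝ) < 3 := by
        rw [e']
        have c1 : (K j i : ℝ) = ⌊α i + j * v i⌋ := rfl
        have c2 : (K 0 i : ℝ) = ⌊α i + (0:ℕ) * v i⌋ := rfl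
        rw [abs_le] at b5
        push_cast at *
        rw [abs_lt, c1, c2]
        constructor <;> linarith [b5.1, b5.2]
      have h3 : (K j i - K 0 i).natAbs < 3 := by exact_mod_cast h2
      omega
    calc φ j ≤ ∑ _i : Fin d, 2 := Finset.sum_le_sum fun i _ => h1 i
      _ = 2 * d := by simp [mul_comm]
  -- the pieces
  choose I hI1 hI2 using fun (x : Fin d → ℤ) (k : κ) => hF 0 k (fun i => α i - x i) v
  have mem_iff : ∀ (j : ℕ) (k : κ), F 0 (fun i => Int.fract (α i + (j:ℝ) * v i)) = k ↔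
      ∃ p, (j:ℝ) ∈ I (K j) k p := by
    intro j k
    have e : (fun i => Int.fract (α i + (j:ℝ) * v i)) = (fun i => α i - (K j i : ℝ)) + (j:ℝ) • v := by
      funext i
      simp only [Pi.add_apply, Pi.smul_apply, smul_eq_mul, Int.fract, hK]
      ring
    rw [e]
    have h := Set.ext_iff.1 (hI2 (K j) k) (j:ℝ)
    rw [Set.mem_iUnion] at h
    exact h
  -- labels of the points `3 * 2 ^ j`
  have hlab : ∀ j : ℕ, ∃ p : Fin P, ((3 * 2 ^ j : ℕ) : ℝ) ∈
      I (K (3 * 2 ^ j)) (F 0 (fun i => Int.fract (α i + ((3 * 2 ^ j : ℕ) : ℝ) * v i))) p :=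
    fun j => (mem_iff _ _).1 rfl
  choose pc hpc using hlab
  let lab : ℕ → Fin (2 * d + 1) × κ × Fin P := fun j =>
    (⟨min (φ (3 * 2 ^ j)) (2 * d), by omega⟩,
      F 0 (fun i => Int.fract (α i + ((3 * 2 ^ j : ℕ) : ℝ) * v i)), pc j)
  obtain ⟨a, ha, b, hb, hab, hl⟩ := Finset.exists_ne_map_eq_of_card_lt_of_maps_to
    (s := range (W + 1)) (t := (univ : Finset (Fin (2 * d + 1) × κ × Fin P))) (f := lab)
    (by simp [hW]) (fun _ _ => mem_univ _)
  have key : ∀ a b : ℕ, a < b → b ≤ W → lab a = lab b →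
      ∃ x : ℕ, m ≤ x ∧ 5 * x ≤ N ∧ c (3 * x) = c (4 * x) ∧ c (4 * x) = c (5 * x) := by
    intro a b hab hb hl
    have hpa : 3 * 2 ^ a ≤ M := by
      rw [hM]
      gcongr
      · norm_num
      · omega
    have hpb : 3 * 2 ^ b ≤ M := by
      rw [hM]
      gcongr
      norm_num
    have hstep : 2 * 2 ^ a ≤ 2 ^ b := by
      rw [← pow_succ']
      exact Nat.pow_le_pow_right (by norm_num) hab
    simp only [lab, Prod.mk.injEq, Fin.mk.injEq] at hl
    obtain ⟨l1, l2, l3⟩ := hl
    have hφa := hφM _ hpa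
    have hφb := hφM _ hpb
    have l1' : φ (3 * 2 ^ a) = φ (3 * 2 ^ b) := by omega
    have hcolour : ∀ t : ℕ, 3 * 2 ^ a ≤ t → t ≤ 3 * 2 ^ b →
        c (m * q * t) = F 0 (fun i => Int.fract (α i + ((3 * 2 ^ a : ℕ) : ℝ) * v i)) := by
      intro t ht1 ht2
      have h2a : 0 < 2 ^ a := by positivity
      rw [hcol t (ht2.trans hpb) (by omega)]
      have g1 : φ (3 * 2 ^ a) = φ t := by
        have := φmono _ _ ht1
        have := φmono _ _ ht2
        omega
      have g2 : φ t = φ (3 * 2 ^ b) := by omega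
      have k1 : K (3 * 2 ^ a) = K t := φinj _ _ ht1 g1
      have k2 : K t = K (3 * 2 ^ b) := φinj _ _ ht2 g2
      have m1 := hpc a
      have m2 := hpc b
      rw [k1] at m1
      rw [← k2, ← l2, ← l3] at m2
      refine (mem_iff t _).2 ⟨pc a, (hI1 _ _ _).out m1 m2 ⟨?_, ?_⟩⟩
      · exact_mod_cast ht1
      · exact_mod_cast ht2
    refine ⟨m * q * 2 ^ a, ?_, ?_, ?_, ?_⟩
    · rw [mul_assoc]
      exact Nat.le_mul_of_pos_right _ (by positivity)
    · have h5 := mem_Icc.1 (hbound (5 * 2 ^ a) (by omega) (by have : 0 < 2 ^ a := by positivity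
                                                              omega))
      calc 5 * (m * q * 2 ^ a) = m * q * (5 * 2 ^ a) := by ring
        _ ≤ N := h5.2
    · have e3 : 3 * (m * q * 2 ^ a) = m * q * (3 * 2 ^ a) := by ring
      have e4 : 4 * (m * q * 2 ^ a) = m * q * (4 * 2 ^ a) := by ring
      rw [e3, e4, hcolour _ le_rfl (by omega), hcolour _ (by omega) (by omega)]
    · have e5 : 5 * (m * q * 2 ^ a) = m * q * (5 * 2 ^ a) := by ring
      have e4 : 4 * (m * q * 2 ^ a) = m * q * (4 * 2 ^ a) := by ring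
      rw [e5, e4, hcolour _ (by omega) (by omega), hcolour _ (by omega) (by omega)]
  rw [mem_range] at ha hb
  rcases lt_or_gt_of_ne hab with h | h
  · exact key a b h (by omega) hl
  · exact key b a h (by omega) hl.symm

lemma described_mul {κ : Type} {d P m N : ℕ} {c : ℕ → κ} (hc : Described d P m N c) (s : ℕ) :
    Described d P (m * s) N c := by
  obtain ⟨θ, α, F, hF, hcF⟩ := hc
  refine ⟨θ, α, fun ρ => F (ρ % m), fun ρ k => hF (ρ % m) k, fun n hn => ?_⟩
  rw [hcF n hn]
  simp only [Nat.mod_mul_right_mod]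

lemma size (r P d : ℕ) (hrP : 1 ≤ r * P) :
    (3 * 2 ^ ((2 * d + 1) * (r * P))) ^ (d + 1) ≤ 2 ^ (3 * r * P * (d + 1) ^ 2) := by
  have h1 : 3 * 2 ^ ((2 * d + 1) * (r * P)) ≤ 2 ^ (2 + (2 * d + 1) * (r * P)) := by
    rw [pow_add]
    gcongr
    norm_num
  calc (3 * 2 ^ ((2 * d + 1) * (r * P))) ^ (d + 1)
      ≤ (2 ^ (2 + (2 * d + 1) * (r * P))) ^ (d + 1) := by gcongr
    _ = 2 ^ ((2 + (2 * d + 1) * (r * P)) * (d + 1)) := by rw [pow_mul]
    _ ≤ _ := by
      refine Nat.pow_le_pow_right (by norm_num) ?_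
      have : (2 + (2 * d + 1) * (r * P)) ≤ 3 * (r * P) * (d + 1) := by nlinarith
      calc (2 + (2 * d + 1) * (r * P)) * (d + 1)
          ≤ (3 * (r * P) * (d + 1)) * (d + 1) := by gcongr
        _ = _ := by ring

/-- **Pythagorean triples in colourings of bounded Bohr dimension.** -/
theorem result :
    -- (1) monochromatic triples `(3 x, 4 x, 5 x)`
    (∀ (κ : Type) [Fintype κ] (d P m N : ℕ) (c : ℕ → κ), 0 < m → Described d P m N c →
      m * (3 * 2 ^ ((2 * d + 1) * (Fintype.card κ * P))) ^ (d + 1) ≤ N →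
        ∃ x : ℕ, m ≤ x ∧ 5 * x ≤ N ∧ c (3 * x) = c (4 * x) ∧ c (4 * x) = c (5 * x)) ∧
    -- (2) the dimension of a colouring of `[1, N]` without monochromatic Pythagorean triples
    (∀ (κ : Type) [Fintype κ] (d P m N : ℕ) (c : ℕ → κ), 0 < m → 0 < P → Described d P m N c →
      (∀ x y z : ℕ, 0 < x → 0 < y → z ≤ N → x ^ 2 + y ^ 2 = z ^ 2 → ¬ (c x = c y ∧ c y = c z)) →
        (N : ℝ) < m * 2 ^ (3 * Fintype.card κ * P * (d + 1) ^ 2)) ∧
    -- (3) colourings of the positive integers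
    (∀ (κ : Type) [Fintype κ] (c : ℕ → κ),
      (∀ s : ℕ, ∃ N d P m : ℕ, 0 < m ∧ 0 < P ∧ Described d P m N c ∧
        s * m * 2 ^ (3 * Fintype.card κ * P * (d + 1) ^ 2) ≤ N) →
      ∀ s : ℕ, ∃ x y z : ℕ, s ≤ x ∧ s ≤ y ∧ x ^ 2 + y ^ 2 = z ^ 2 ∧ c x = c y ∧ c y = c z) := by
  refine ⟨fun κ _ d P m N c hm hc hN => main hm hc hN, ?_, ?_⟩
  · intro κ _ d P m N c hm hP hc hno
    by_contra hcon
    push Not at hcon
    have hcon' : m * 2 ^ (3 * Fintype.card κ * P * (d + 1) ^ 2) ≤ N := by exact_mod_cast hcon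
    have hκ : 0 < Fintype.card κ := Fintype.card_pos_iff.2 ⟨c 0⟩
    have hle := size (Fintype.card κ) P d (Nat.succ_le_of_lt (Nat.mul_pos hκ hP))
    obtain ⟨x, hx, h5, h34, h45⟩ := main hm hc ((Nat.mul_le_mul_left m hle).trans hcon')
    exact hno (3 * x) (4 * x) (5 * x) (by omega) (by omega) h5 (by ring) ⟨h34, h45⟩
  · intro κ _ c h s
    obtain ⟨N, d, P, m, hm, hP, hc, hN⟩ := h (s + 1)
    have hκ : 0 < Fintype.card κ := Fintype.card_pos_iff.2 ⟨c 0⟩
    have hle := size (Fintype.card κ) P d (Nat.succ_le_of_lt (Nat.mul_pos hκ hP))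
    have hN' : m * (s + 1) * (3 * 2 ^ ((2 * d + 1) * (Fintype.card κ * P))) ^ (d + 1) ≤ N := by
      refine le_trans ?_ hN
      rw [mul_comm m (s + 1)]
      exact Nat.mul_le_mul_left _ hle
    obtain ⟨x, hx, _, h34, h45⟩ := main (by positivity) (described_mul hc (s + 1)) hN'
    have hxs : s ≤ x := by
      have : s + 1 ≤ m * (s + 1) := Nat.le_mul_of_pos_left _ hm
      omega
    exact ⟨3 * x, 4 * x, 5 * x, by omega, by omega, by ring, h34, h45⟩

end Pool.Agent.Results.MP_0f91f8_co.BohrDimensionColourings
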