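import Pool.Agent.Q227.Pyt.Blk

/-!
# MP_0f91f8_co: infinite sets of sums of multiples of a Pythagorean triple in one colour

Colourings computed with bounded memory, together with the colours of the orbit of a distal point of
a dynamical system.
-/

set_option autoImplicit false

open Filter Topology Set

namespace Pool.Agent.Results.MP_0f91f8_co.InfiniteSums

open Pool.Agent.Results.MP_0f91f8_co.BoundedMemory (level Computed levelBounded_of_computed)
open Pool.Agent.Q227.Pyt (DistalPoint)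

universe u

/-- (1) For `b ≥ 2`, `w` and `k` there is `G` such that for every colouring `c` with at most `k`
colours all of whose levels have at most `w` elements there is a Pythagorean triple `x, y, z < b ^ G`
with the following property.  Let `p` be a distal point of a compact system `(Y, S)`, `V` a
neighbourhood of `p` and `K` a number.  Then there are `K < n₀ < n₁ < …` and a colour `κ₀` such that
all sums `m = ∑ i ∈ β, n i * u i`, `β` a nonempty finite set of indices and every `u i` one of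
`x, y, z`, have the colour `c m = κ₀` and satisfy `S ^ m p ∈ V`.

(2) Let `c` be computed with bounded memory in base `b` and let `F` be a function on `Y` which is
constant near the distal point `p`.  Then for the colouring `m ↦ (c m, F (S ^ m p))` there are a
Pythagorean triple `x, y, z` and, for every `K`, a sequence `K < n₀ < n₁ < …` such that all the sums
`∑ i ∈ β, n i * u i`, `u i` in `{x, y, z}`, have the same colour. -/
theorem result :
    (∀ b w k : ℕ, 2 ≤ b → ∃ G : ℕ, ∀ (κ : Type) [Finite κ] (c : ℕ → κ), Nat.card κ ≤ k →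
      (∀ j, (level b c j).ncard ≤ w) →
      ∃ x y z : ℕ, 0 < x ∧ 0 < y ∧ 0 < z ∧ x < b ^ G ∧ y < b ^ G ∧ z < b ^ G ∧
        x ^ 2 + y ^ 2 = z ^ 2 ∧
        ∀ (Y : Type u) [TopologicalSpace Y] [CompactSpace Y] [T2Space Y] (S : Y → Y),
          Continuous S → ∀ p : Y, DistalPoint S p → ∀ V ∈ 𝓝 p, ∀ K : ℕ,
          ∃ (κ₀ : κ) (n : ℕ → ℕ), StrictMono n ∧ K < n 0 ∧
            ∀ (β : Finset ℕ) (u : ℕ → ℕ), β.Nonempty → (∀ i ∈ β, u i = x ∨ u i = y ∨ u i = z) →
              c (∑ i ∈ β, n i * u i) = κ₀ ∧ S^[∑ i ∈ β, n i * u i] p ∈ V) ∧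
    (∀ (b : ℕ) (κ : Type) [Finite κ] (c : ℕ → κ), 2 ≤ b → Computed b c →
      ∀ (Y : Type u) [TopologicalSpace Y] [CompactSpace Y] [T2Space Y] (S : Y → Y),
        Continuous S → ∀ p : Y, DistalPoint S p → ∀ (κ' : Type) (F : Y → κ'),
        (∀ᶠ q in 𝓝 p, F q = F p) →
        ∃ x y z : ℕ, 0 < x ∧ 0 < y ∧ 0 < z ∧ x ^ 2 + y ^ 2 = z ^ 2 ∧ ∀ K : ℕ,
          ∃ (col : κ × κ') (n : ℕ → ℕ), StrictMono n ∧ K < n 0 ∧
            ∀ (β : Finset ℕ) (u : ℕ → ℕ), β.Nonempty → (∀ i ∈ β, u i = x ∨ u i = y ∨ u i = z) →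
              (c (∑ i ∈ β, n i * u i), F (S^[∑ i ∈ β, n i * u i] p)) = col) := by
  have h1 : ∀ b w k : ℕ, 2 ≤ b → ∃ G : ℕ, ∀ (κ : Type) [Finite κ] (c : ℕ → κ), Nat.card κ ≤ k →
      (∀ j, (level b c j).ncard ≤ w) →
      ∃ x y z : ℕ, 0 < x ∧ 0 < y ∧ 0 < z ∧ x < b ^ G ∧ y < b ^ G ∧ z < b ^ G ∧
        x ^ 2 + y ^ 2 = z ^ 2 ∧
        ∀ (Y : Type u) [TopologicalSpace Y] [CompactSpace Y] [T2Space Y] (S : Y → Y),
          Continuous S → ∀ p : Y, DistalPoint S p → ∀ V ∈ 𝓝 p, ∀ K : ℕ,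
          ∃ (κ₀ : κ) (n : ℕ → ℕ), StrictMono n ∧ K < n 0 ∧
            ∀ (β : Finset ℕ) (u : ℕ → ℕ), β.Nonempty → (∀ i ∈ β, u i = x ∨ u i = y ∨ u i = z) →
              c (∑ i ∈ β, n i * u i) = κ₀ ∧ S^[∑ i ∈ β, n i * u i] p ∈ V := by
    intro b w k hb
    obtain ⟨G, hG⟩ := Pool.Agent.Q227.Pyt.exists_positions b w k hb
    refine ⟨G, ?_⟩
    intro κ _ c hk hw
    obtain ⟨x, y, z, hx, hy, hz, hxb, hyb, hzb, hp, s, hs, hblk⟩ := hG κ c hk hw
    refine ⟨x, y, z, hx, hy, hz, hxb, hyb, hzb, hp, ?_⟩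
    intro Y _ _ _ S hS p hdp V hV K
    have hG1 : 1 ≤ G := by
      rcases Nat.eq_zero_or_pos G with h | h
      · rw [h, pow_zero] at hxb
        omega
      · exact h
    obtain ⟨κ₀, n, h1, h2, h3⟩ := Pool.Agent.Q227.Pyt.infinite_sums (W := {x, y, z}) hb hG1
      (fun v hv => by
        simp only [Finset.mem_insert, Finset.mem_singleton] at hv
        rcases hv with rfl | rfl | rfl <;> assumption)
      (Finset.mem_insert_self x _) hx hs hblk Y hS hdp hV K
    refine ⟨κ₀, n, h1, h2, fun β v hβ hv => h3 β v hβ fun i hi => ?_⟩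
    rcases hv i hi with h | h | h <;> rw [h] <;> simp [hx, hy, hz]
  refine ⟨h1, ?_⟩
  intro b κ _ c hb hc Y _ _ _ S hS p hdp κ' F hF
  obtain ⟨w, hw⟩ := levelBounded_of_computed hb hc
  obtain ⟨G, hG⟩ := h1 b w (Nat.card κ) hb
  obtain ⟨x, y, z, hx, hy, hz, -, -, -, hp, h⟩ := hG κ c le_rfl hw
  refine ⟨x, y, z, hx, hy, hz, hp, fun K => ?_⟩
  obtain ⟨κ₀, n, hn1, hn2, hn3⟩ := h Y S hS p hdp _ hF K
  refine ⟨(κ₀, F p), n, hn1, hn2, fun β v hβ hv => ?_⟩
  obtain ⟨e1, e2⟩ := hn3 β v hβ hv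
  exact Prod.ext e1 e2

end Pool.Agent.Results.MP_0f91f8_co.InfiniteSums
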