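import Pool.Agent.H96S.PY.Run
import Pool.Agent.H96S.PY.Sharp
import Pool.Agent.Q294.PY.Comp
import Pool.Agent.Q294.PY.Cong
import Pool.Agent.Q294.PY.Lower

/-!
# Monochromatic Pythagorean triples in multiplicative colourings with three colours

A colouring `c` of the positive integers is a congruence if the colour of `k n` is determined by `k`
and the colour of `n`.  The most important examples are the completely multiplicative functions with
values in a finite group.  (For the pairs `x, y` with `x² + y²` a square the general case was reduced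
by Frantzikinakis, Klurman and Moreira to statements on multiplicative functions.)

**Theorem.** (1) Every congruence with at most three colours has a monochromatic Pythagorean triple.
More generally, let `g` be any colouring which, for every `N`, is constant on `{k, 2 k, …, N k}` for
some `k`; then there are arbitrarily large triples on which the congruence and `g` are constant.

(2) For a group `G` of order three every completely multiplicative map `{1, …, N} → G` has a
Pythagorean triple in one of its fibres if and only if `N ≥ 4633`; for a group of order two this is so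
if and only if `N ≥ 533`.

(3) For every completely multiplicative function with values in a group of order three there is a
monochromatic Pythagorean triple `x, y, z ≤ 2000000` all of whose prime factors are at most `277`;
for groups of order two all prime factors are at most `41`.

(4) The numbers `41` and `277` are best possible: there are completely multiplicative functions onto
groups of order two and three for which every monochromatic Pythagorean triple has an element
divisible by `41` and `277`.  The same for `1181` and `2801` and groups of order five and seven.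

The proofs of (2) and (3) are decision trees, found by a computer and checked by the kernel: one
branches according to the colour of a suitable prime, until the colours of all three elements of some
triple are known and equal.  The exactness in (2) is given by explicit maps.  For (1) let `n₀` be a
multiple whose multiples have the least number of colours; the multiplications permute these colours
and generate a regular commutative permutation group.  For (4) one takes the classes of the `r`-th
powers modulo a prime `q ≡ 1 mod r` for which the curve `a^(2r) + b^(2r) = 1` has only trivial points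
modulo `q`.

(File by helper294 and helper96.)
-/

set_option autoImplicit false

namespace Pool.Agent.Results.MP_0f91f8_co.MultiplicativeThreeColourings

/-- `f` is completely multiplicative on `{1, …, N}` -/
def MulUpTo (N : ℕ) {G : Type} [Group G] (f : ℕ → G) : Prop :=
  ∀ a b : ℕ, 0 < a → 0 < b → a * b ≤ N → f (a * b) = f a * f b

/-- Every completely multiplicative map from `{1, …, N}` to `G` has the same value at the three
members of some Pythagorean triple. -/
def Unavoidable (N : ℕ) (G : Type) [Group G] : Prop :=
  ∀ f : ℕ → G, MulUpTo N f →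
    ∃ x y z : ℕ, 0 < x ∧ 0 < y ∧ z ≤ N ∧ x ^ 2 + y ^ 2 = z ^ 2 ∧ f x = f y ∧ f y = f z

theorem Unavoidable.mono {N N' : ℕ} {G : Type} [Group G] (h : Unavoidable N G) (hN : N ≤ N') :
    Unavoidable N' G := by
  intro f hf
  obtain ⟨x, y, z, hx, hy, hz, h1, h2, h3⟩ := h f (fun a b ha hb hab => hf a b ha hb (hab.trans hN))
  exact ⟨x, y, z, hx, hy, hz.trans hN, h1, h2, h3⟩

/-- transport to `ZMod r` -/
theorem unavoidable_iff {N r : ℕ} (hr : r.Prime) (G : Type) [Group G] (hG : Nat.card G = r) :
    Unavoidable N G ↔ ∀ f : ℕ → ZMod r,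
      (∀ a b : ℕ, 0 < a → 0 < b → a * b ≤ N → f (a * b) = f a + f b) → Pool.Agent.H96S.PY.Found N f := by
  have : Fact r.Prime := ⟨hr⟩
  have hc : IsCyclic G := isCyclic_of_prime_card hG
  obtain ⟨e⟩ : Nonempty (_root_.Multiplicative (ZMod r) ≃* G) := by
    have e := zmodCyclicMulEquiv (G := G) hc
    rw [hG] at e
    exact ⟨e⟩
  constructor
  · intro h f hf
    obtain ⟨x, y, z, hx, hy, hz, h1, h2, h3⟩ := h (fun n => e (_root_.Multiplicative.ofAdd (f n))) (by
      intro a b ha hb hab
      show e (_root_.Multiplicative.ofAdd (f (a * b))) = e (_root_.Multiplicative.ofAdd (f a)) * e (_root_.Multiplicative.ofAdd (f b))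
      rw [hf a b ha hb hab, ofAdd_add, map_mul])
    exact ⟨x, y, z, hx, hy, hz, h1, _root_.Multiplicative.ofAdd.injective (e.injective h2),
      _root_.Multiplicative.ofAdd.injective (e.injective h3)⟩
  · intro h f hf
    obtain ⟨x, y, z, hx, hy, hz, h1, h2, h3⟩ := h (fun n => _root_.Multiplicative.toAdd (e.symm (f n))) (by
      intro a b ha hb hab
      show _root_.Multiplicative.toAdd (e.symm (f (a * b))) = _
      rw [hf a b ha hb hab, map_mul, toAdd_mul])
    exact ⟨x, y, z, hx, hy, hz, h1, e.symm.injective (_root_.Multiplicative.toAdd.injective h2),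
      e.symm.injective (_root_.Multiplicative.toAdd.injective h3)⟩

theorem exact_three (G : Type) [Group G] (hG : Nat.card G = 3) (N : ℕ) : Unavoidable N G ↔ 4633 ≤ N := by
  constructor
  · intro h
    by_contra hN
    push Not at hN
    have h1 := (unavoidable_iff Nat.prime_three G hG).1 (h.mono (show N ≤ 4632 by omega))
    exact Pool.Agent.H96S.PY.not3 (h1 _ (fun a b ha hb _ =>
      Pool.Agent.H96S.PY.fS_mul _ Pool.Agent.H96S.PY.prime3 a b ha hb))
  · intro hN
    exact ((unavoidable_iff Nat.prime_three G hG).2 Pool.Agent.H96S.PY.found3).mono hN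

theorem exact_two (G : Type) [Group G] (hG : Nat.card G = 2) (N : ℕ) : Unavoidable N G ↔ 533 ≤ N := by
  constructor
  · intro h
    by_contra hN
    push Not at hN
    have h1 := (unavoidable_iff Nat.prime_two G hG).1 (h.mono (show N ≤ 532 by omega))
    exact Pool.Agent.H96S.PY.not2 (h1 _ (fun a b ha hb _ =>
      Pool.Agent.H96S.PY.fS_mul _ Pool.Agent.H96S.PY.prime2 a b ha hb))
  · intro hN
    exact ((unavoidable_iff Nat.prime_two G hG).2 Pool.Agent.H96S.PY.found2).mono hN


/-- multiplication preserves the equality of colours (of positive integers) -/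
def Congruence {κ : Type} (c : ℕ → κ) : Prop :=
  ∀ k m n : ℕ, 0 < k → 0 < m → 0 < n → c m = c n → c (k * m) = c (k * n)

/-- `f` is completely multiplicative (on the positive integers) -/
def Multiplicative {G : Type} [Group G] (f : ℕ → G) : Prop :=
  ∀ m n : ℕ, 0 < m → 0 < n → f (m * n) = f m * f n

/-- `x`, `y`, `z` is a monochromatic Pythagorean triple of positive integers -/
def IsTriple {κ : Type} (c : ℕ → κ) (x y z : ℕ) : Prop :=
  0 < x ∧ 0 < y ∧ 0 < z ∧ x ^ 2 + y ^ 2 = z ^ 2 ∧ c x = c y ∧ c y = c z

/-- there is a monochromatic Pythagorean triple with elements up to `2000000` and prime factors up to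
`B` -/
def SmallTriple {κ : Type} (c : ℕ → κ) (B : ℕ) : Prop :=
  ∃ x y z : ℕ, IsTriple c x y z ∧ z ≤ 2000000 ∧ ∀ q : ℕ, q.Prime → q ∣ x * y * z → q ≤ B

open Pool.Agent.Q294.PY

theorem of_found {r B : ℕ} {F : ℕ → ZMod r} (h : Found F B) : SmallTriple F B := by
  obtain ⟨m, n, h1, h2, h3, h4, h5, h6, h7, h8⟩ := h
  refine ⟨m * m - n * n, 2 * m * n, m * m + n * n, ⟨?_, ?_, ?_, ?_, h4, h5⟩, ?_, ?_⟩
  · exact Nat.sub_pos_of_lt (Nat.mul_self_lt_mul_self h2)
  · have hm : 0 < m := by omega
    positivity
  · have hm : 0 < m := by omega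
    positivity
  · have hle : n * n ≤ m * m := Nat.mul_self_le_mul_self h2.le
    zify [hle]
    ring
  · nlinarith
  · intro q hq hd
    rcases (hq.dvd_mul).1 hd with hd | hd
    · rcases (hq.dvd_mul).1 hd with hd | hd
      · exact h6 q hq hd
      · exact h7 q hq hd
    · exact h8 q hq hd

theorem of_group {r B : ℕ} [hr : Fact r.Prime] {G : Type} [Group G] {f : ℕ → G}
    (hf : Multiplicative f) (hG : Nat.card G = r)
    (h : ∀ F : ℕ → ZMod r, Additive F → Found F B) : SmallTriple f B := by
  have hcard : Nat.card G = Nat.card (_root_.Multiplicative (ZMod r)) := by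
    rw [hG, Nat.card_congr (_root_.Multiplicative.toAdd (α := ZMod r)), Nat.card_zmod]
  let e : G ≃* _root_.Multiplicative (ZMod r) := mulEquivOfPrimeCardEq hG (hcard ▸ hG)
  let F : ℕ → ZMod r := fun n => (e (f n)).toAdd
  have hF : Additive F := by
    intro m n hm hn
    simp only [F]
    rw [hf m n hm hn, map_mul]
    rfl
  have hiff : ∀ a b, F a = F b → f a = f b := fun a b hab =>
    e.injective (_root_.Multiplicative.toAdd.injective hab)
  obtain ⟨x, y, z, ⟨h1, h2, h3, h4, h5, h6⟩, h7, h8⟩ := of_found (h F hF)
  exact ⟨x, y, z, ⟨h1, h2, h3, h4, hiff _ _ h5, hiff _ _ h6⟩, h7, h8⟩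

theorem three {G : Type} [Group G] {f : ℕ → G} (hf : Multiplicative f) (hG : Nat.card G = 3) :
    SmallTriple f 277 := by
  have : Fact (Nat.Prime 3) := ⟨Nat.prime_three⟩
  exact of_group hf hG fun F hF => ok_spec (Or.inr rfl) hF tree3 [] (by
    intro a ha; exact absurd ha List.not_mem_nil) ok3

theorem two {G : Type} [Group G] {f : ℕ → G} (hf : Multiplicative f) (hG : Nat.card G = 2) :
    SmallTriple f 41 := by
  have : Fact (Nat.Prime 2) := ⟨Nat.prime_two⟩
  exact of_group hf hG fun F hF => ok_spec (Or.inl rfl) hF tree2 [] (by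
    intro a ha; exact absurd ha List.not_mem_nil) ok2

/-- **Monochromatic Pythagorean triples in multiplicative colourings with three colours.** -/
theorem result :
    -- (1) congruences with at most three colours, combined with maps which are constant on long
    -- homogeneous progressions
    (∀ (κ : Type) (c : ℕ → κ), Congruence c → {x | ∃ n, 0 < n ∧ c n = x}.encard ≤ 3 →
      ∀ (A : Type) (g : ℕ → A),
        (∀ N : ℕ, ∃ k : ℕ, 0 < k ∧ ∀ n : ℕ, 0 < n → n ≤ N → g (k * n) = g k) →
        ∀ M : ℕ, ∃ x y z : ℕ, M < x ∧ M < y ∧ M < z ∧ IsTriple c x y z ∧ g x = g y ∧ g y = g z) ∧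
    -- (2) the exact thresholds for completely multiplicative maps from `{1, …, N}`
    (∀ (G : Type) [Group G], Nat.card G = 3 → ∀ N : ℕ, Unavoidable N G ↔ 4633 ≤ N) ∧
    (∀ (G : Type) [Group G], Nat.card G = 2 → ∀ N : ℕ, Unavoidable N G ↔ 533 ≤ N) ∧
    -- (3) triples with small prime factors
    (∀ (G : Type) [Group G] (f : ℕ → G), Multiplicative f →
      (Nat.card G = 3 → SmallTriple f 277) ∧ (Nat.card G = 2 → SmallTriple f 41)) ∧
    -- (4) the bounds for the prime factors are best possible
    (∀ r q : ℕ, (r, q) ∈ [(2, 41), (3, 277), (5, 1181), (7, 2801)] →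
      ∃ (G : Type) (_ : Group G) (f : ℕ → G), Nat.card G = r ∧ Multiplicative f ∧
        ∀ x y z : ℕ, IsTriple f x y z → q ∣ x * y * z) := by
  refine ⟨?_, exact_three, exact_two, fun G _ f hf => ⟨three hf, two hf⟩, ?_⟩
  · intro κ c hc h3 A g hg M
    have hset : {x | ∃ n, 0 < n ∧ c n = x} = mults c 1 := by
      ext x
      simp [mults]
    rw [hset] at h3
    have hfin : (mults c 1).Finite := Set.finite_of_encard_le_coe (k := 3) (by exact_mod_cast h3)
    have hn : (mults c 1).ncard ≤ 3 := by
      rw [← hfin.cast_ncard_eq] at h3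
      exact_mod_cast h3
    obtain ⟨n₀, hn₀, H, _, f, _, hH, hf, hfc⟩ := exists_group hc hfin hn
    have key : ∃ x y z : ℕ, IsTriple f x y z := by
      have h0 : 0 < Nat.card H := Nat.card_pos
      have hcases : Nat.card H = 1 ∨ Nat.card H = 2 ∨ Nat.card H = 3 := by omega
      rcases hcases with h1 | h1 | h1
      · have : Subsingleton H := (Nat.card_eq_one_iff_unique.1 h1).1
        exact ⟨3, 4, 5, by norm_num, by norm_num, by norm_num, by norm_num,
          Subsingleton.elim _ _, Subsingleton.elim _ _⟩
      · obtain ⟨x, y, z, h, -⟩ := two (f := f) hf h1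
        exact ⟨x, y, z, h⟩
      · obtain ⟨x, y, z, h, -⟩ := three (f := f) hf h1
        exact ⟨x, y, z, h⟩
    obtain ⟨x, y, z, h1, h2, h3, h4, h5, h6⟩ := key
    have hxz : x ≤ z := by
      by_contra hcon
      push Not at hcon
      have : z ^ 2 < x ^ 2 := Nat.pow_lt_pow_left hcon (by norm_num)
      omega
    have hyz : y ≤ z := by
      by_contra hcon
      push Not at hcon
      have : z ^ 2 < y ^ 2 := Nat.pow_lt_pow_left hcon (by norm_num)
      omega
    obtain ⟨k, hk, hgk⟩ := hg (n₀ * (M + 1) * z)
    have hw : ∀ w : ℕ, 0 < w → w ≤ z → 0 < k * (n₀ * (M + 1) * w) ∧ M < k * (n₀ * (M + 1) * w) ∧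
        g (k * (n₀ * (M + 1) * w)) = g k := by
      intro w hw0 hwz
      have hpos : 0 < n₀ * (M + 1) * w := by positivity
      refine ⟨Nat.mul_pos hk hpos, ?_, hgk _ hpos (Nat.mul_le_mul_left _ hwz)⟩
      calc M < M + 1 := Nat.lt_succ_self M
        _ = 1 * (1 * (M + 1) * 1) := by ring
        _ ≤ k * (n₀ * (M + 1) * w) := by
          gcongr
          · exact hk
          · exact hn₀
          · exact hw0
    have hcw : ∀ w w' : ℕ, 0 < w → 0 < w' → f w = f w' →
        c (k * (n₀ * (M + 1) * w)) = c (k * (n₀ * (M + 1) * w')) := by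
      intro w w' hw0 hw0' hww
      have hkM : 0 < k * (M + 1) := Nat.mul_pos hk (Nat.succ_pos M)
      have e : ∀ v : ℕ, k * (n₀ * (M + 1) * v) = n₀ * ((k * (M + 1)) * v) := by intro v; ring
      rw [e, e]
      refine hfc _ _ (Nat.mul_pos hkM hw0) (Nat.mul_pos hkM hw0') ?_
      rw [hf _ _ hkM hw0, hf _ _ hkM hw0', hww]
    obtain ⟨a1, a2, a3⟩ := hw x h1 hxz
    obtain ⟨b1, b2, b3⟩ := hw y h2 hyz
    obtain ⟨c1, c2, c3⟩ := hw z h3 le_rfl
    refine ⟨_, _, _, a2, b2, c2, ⟨a1, b1, c1, ?_, hcw x y h1 h2 h5, hcw y z h2 h3 h6⟩,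
      a3.trans b3.symm, b3.trans c3.symm⟩
    calc (k * (n₀ * (M + 1) * x)) ^ 2 + (k * (n₀ * (M + 1) * y)) ^ 2 =
        (k * (n₀ * (M + 1))) ^ 2 * (x ^ 2 + y ^ 2) := by ring
      _ = (k * (n₀ * (M + 1) * z)) ^ 2 := by rw [h4]; ring
  · intro r q hrq
    have main : ∀ (r q : ℕ) (hq : q.Prime) (hr : r ∣ q - 1) (l : List ℕ) (h : test q r l = true),
        ∃ (G : Type) (_ : Group G) (f : ℕ → G), Nat.card G = r ∧ Multiplicative f ∧
          ∀ x y z : ℕ, IsTriple f x y z → q ∣ x * y * z := by
      intro r q hq hr l h
      have : Fact q.Prime := ⟨hq⟩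
      obtain ⟨G, _, f, h1, h2, h3⟩ := lower q r hr (test_spec h)
      refine ⟨G, inferInstance, f, h1, h2, ?_⟩
      rintro x y z ⟨a1, a2, a3, a4, a5, a6⟩
      exact h3 x y z a1 a2 a3 a4 a5 a6
    simp only [List.mem_cons, Prod.mk.injEq, List.not_mem_nil, or_false] at hrq
    rcases hrq with ⟨rfl, rfl⟩ | ⟨rfl, rfl⟩ | ⟨rfl, rfl⟩ | ⟨rfl, rfl⟩
    · exact main 2 41 (by norm_num) (by norm_num) _ test_41
    · exact main 3 277 (by norm_num) (by norm_num) _ test_277
    · exact main 5 1181 (by norm_num) (by norm_num) _ test_1181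
    · exact main 7 2801 (by norm_num) (by norm_num) _ test_2801

end Pool.Agent.Results.MP_0f91f8_co.MultiplicativeThreeColourings
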