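import Mathlib

/-!
# MP_0f91f8_co: a strong form of Q1: products of Pythagorean triples with perfect power shapes and
members of arbitrary partition regular families

`x² + y² = z²` is partition regular if and only if, for every `K`, every `k` and every partition regular
family `𝒮` of finite sets of positive integers, every finite colouring of the positive integers has `k`
Pythagorean triples `T_i = {d a, d b, d c}`, with `a`, `b`, `c` coprime, such that the exponents of all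
primes `p ≤ K` in `a`, `b` and `c` are divisible by `K` (so `30 ^ K` divides `a b c` for `K ≥ 5`), and a
member `S` of `𝒮` such that all products `t_1 ⋯ t_k s` with `t_i ∈ T_i`, `s ∈ S` have the same colour.

Ideas of the proof.  (1) Refine the colouring by the residues modulo `K` of the exponents of the primes
`p ≤ K`.  For a triple which is monochromatic in the refined colouring the exponents of `p` in `a`, `b`
and `c` are congruent modulo `K`, and one of them is zero.  One of `a`, `b`, `c` is even, one is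
divisible by 3, and one is divisible by 5.  (2) If every colouring with `r` colours has a monochromatic
member of the family `𝒜`, then for some `N` every colouring of `{1, …, N}` has one (compactness).
Given a colouring `c`, colour `n` by the vector of all `c (n j)`, `j ≤ N`; a member `B` of the second
family which is monochromatic in this colouring, and a member `A` of `𝒜` in `{1, …, N}` which is
monochromatic for `j ↦ c (b j)`, `b ∈ B`, give a monochromatic product `A B`.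
-/

namespace Pool.Agent.Results.MP_0f91f8_co.PerfectPowerShapes

open Filter

/-- All elements of `A` have the same colour. -/
def Mono {C : Type} (c : ℕ → C) (A : Finset ℕ) : Prop := ∀ a ∈ A, ∀ b ∈ A, c a = c b

/-- A family of finite sets of positive integers is partition regular: every member is nonempty and
consists of positive integers, and every finite colouring of the positive integers has a
monochromatic member. -/
def PartitionRegular (𝒮 : Set (Finset ℕ)) : Prop :=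
  (∀ S ∈ 𝒮, S.Nonempty ∧ ∀ s ∈ S, 0 < s) ∧
    ∀ (r : ℕ) (c : ℕ → Fin r), ∃ S ∈ 𝒮, Mono c S

/-- The Pythagorean triples `{d a, d b, d c}` of positive integers with `a`, `b` coprime such that `K`
divides the exponent of `p` in `a`, in `b` and in `c`, for all primes `p ≤ K`, and such that `30 ^ K`
divides `a b c` if `K ≥ 5`. -/
def Triples (K : ℕ) : Set (Finset ℕ) :=
  {T | ∃ d a b c : ℕ, 0 < d ∧ 0 < a ∧ 0 < b ∧ 0 < c ∧ a.Coprime b ∧ a ^ 2 + b ^ 2 = c ^ 2 ∧
    (∀ p : ℕ, p.Prime → p ≤ K →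
      K ∣ a.factorization p ∧ K ∣ b.factorization p ∧ K ∣ c.factorization p) ∧
    (5 ≤ K → 30 ^ K ∣ a * b * c) ∧ T = {d * a, d * b, d * c}}

/-- The set of all products of an element of each `T_i` with an element of `S`. -/
def products {k : ℕ} (T : Fin k → Finset ℕ) (S : Finset ℕ) : Set ℕ :=
  {n | ∃ (t : Fin k → ℕ) (s : ℕ), (∀ i, t i ∈ T i) ∧ s ∈ S ∧ n = (∏ i, t i) * s}

lemma dvd_aux {a b c : ℕ} (h : a ^ 2 + b ^ 2 = c ^ 2) {p : ℕ} (hp : p = 2 ∨ p = 3 ∨ p = 5) :
    p ∣ a * b * c := by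
  have h2 : ∀ a b c : ZMod 2, a ^ 2 + b ^ 2 = c ^ 2 → a * b * c = 0 := by decide
  have h3 : ∀ a b c : ZMod 3, a ^ 2 + b ^ 2 = c ^ 2 → a * b * c = 0 := by decide
  have h5 : ∀ a b c : ZMod 5, a ^ 2 + b ^ 2 = c ^ 2 → a * b * c = 0 := by decide
  rcases hp with rfl | rfl | rfl
  · have := h2 a b c (by exact_mod_cast congrArg (Nat.cast : ℕ → ZMod 2) h)
    exact (ZMod.natCast_eq_zero_iff _ _).1 (by exact_mod_cast this)
  · have := h3 a b c (by exact_mod_cast congrArg (Nat.cast : ℕ → ZMod 3) h)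
    exact (ZMod.natCast_eq_zero_iff _ _).1 (by exact_mod_cast this)
  · have := h5 a b c (by exact_mod_cast congrArg (Nat.cast : ℕ → ZMod 5) h)
    exact (ZMod.natCast_eq_zero_iff _ _).1 (by exact_mod_cast this)

lemma pow_dvd_aux {a b c K p : ℕ} (hp : p.Prime) (h : p ∣ a * b * c) (ha : 0 < a) (hb : 0 < b)
    (hc : 0 < c) (h1 : K ∣ a.factorization p) (h2 : K ∣ b.factorization p)
    (h3 : K ∣ c.factorization p) : p ^ K ∣ a * b * c := by
  have key : ∀ n : ℕ, 0 < n → K ∣ n.factorization p → p ∣ n → p ^ K ∣ n := by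
    intro n hn hK hpn
    have h4 : 0 < n.factorization p := hp.factorization_pos_of_dvd hn.ne' hpn
    have h5 : K ≤ n.factorization p := Nat.le_of_dvd h4 hK
    exact (hp.pow_dvd_iff_le_factorization hn.ne').2 h5
  rcases (Nat.Prime.dvd_mul hp).1 h with h | h
  · rcases (Nat.Prime.dvd_mul hp).1 h with h | h
    · exact Dvd.dvd.mul_right (Dvd.dvd.mul_right (key a ha h1 h) b) c
    · exact Dvd.dvd.mul_right (Dvd.dvd.mul_left (key b hb h2 h) a) c
  · exact Dvd.dvd.mul_left (key c hc h3 h) _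

/-- Step (1). -/
lemma shapes_of_q1
    (h : ∀ (r : ℕ) (χ : ℕ → Fin r), ∃ x y z : ℕ, 0 < x ∧ 0 < y ∧ 0 < z ∧ x ^ 2 + y ^ 2 = z ^ 2 ∧
      χ x = χ y ∧ χ y = χ z) (K : ℕ) (hK : 1 ≤ K) (r : ℕ) (χ : ℕ → Fin r) :
    ∃ d a b c : ℕ, 0 < d ∧ 0 < a ∧ 0 < b ∧ 0 < c ∧
      a.Coprime b ∧ a ^ 2 + b ^ 2 = c ^ 2 ∧ χ (d * a) = χ (d * b) ∧ χ (d * b) = χ (d * c) ∧
      (∀ p : ℕ, p.Prime → p ≤ K →
        K ∣ a.factorization p ∧ K ∣ b.factorization p ∧ K ∣ c.factorization p) ∧
      (5 ≤ K → 30 ^ K ∣ a * b * c) := by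
  classical
  have : NeZero K := ⟨by omega⟩
  let C : Type := Fin r × (Fin (K + 1) → ZMod K)
  obtain ⟨e⟩ : Nonempty (C ≃ Fin (Fintype.card C)) := ⟨Fintype.equivFin C⟩
  obtain ⟨x, y, z, hx, hy, hz, he, h1, h2⟩ := h (Fintype.card C)
    (fun n => e (χ n, fun p => (n.factorization p : ZMod K)))
  have h1 := e.injective h1
  have h2 := e.injective h2
  set d := x.gcd y with hd
  have hd0 : 0 < d := Nat.gcd_pos_of_pos_left _ hx
  obtain ⟨a, ha⟩ : d ∣ x := Nat.gcd_dvd_left x y
  obtain ⟨b, hb⟩ : d ∣ y := Nat.gcd_dvd_right x y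
  have hdz : d ∣ z := by
    have h3 : d ^ 2 ∣ z ^ 2 := by
      rw [← he, ha, hb, mul_pow, mul_pow, ← mul_add]
      exact Dvd.intro _ rfl
    exact (Nat.pow_dvd_pow_iff (by norm_num)).1 h3
  obtain ⟨c, hc⟩ := hdz
  have ha0 : 0 < a := Nat.pos_of_ne_zero (by rintro rfl; omega)
  have hb0 : 0 < b := Nat.pos_of_ne_zero (by rintro rfl; omega)
  have hc0 : 0 < c := Nat.pos_of_ne_zero (by rintro rfl; omega)
  have hcop : a.Coprime b := by
    have h3 : d * (a.gcd b) = d * 1 := by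
      rw [← Nat.gcd_mul_left, ← ha, ← hb, mul_one]
    exact Nat.eq_of_mul_eq_mul_left hd0 h3
  have hsq : a ^ 2 + b ^ 2 = c ^ 2 := by
    have h3 : d ^ 2 * (a ^ 2 + b ^ 2) = d ^ 2 * c ^ 2 := by
      rw [mul_add, ← mul_pow, ← mul_pow, ← mul_pow, ← ha, ← hb, ← hc, he]
    exact Nat.eq_of_mul_eq_mul_left (by positivity) h3
  have hexp : ∀ p : ℕ, p.Prime → p ≤ K →
      K ∣ a.factorization p ∧ K ∣ b.factorization p ∧ K ∣ c.factorization p := by
    intro p hp hpK
    have e1 : (x.factorization p : ZMod K) = y.factorization p :=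
      congrFun (congrArg Prod.snd h1) ⟨p, by omega⟩
    have e2 : (y.factorization p : ZMod K) = z.factorization p :=
      congrFun (congrArg Prod.snd h2) ⟨p, by omega⟩
    rw [ha, hb, Nat.factorization_mul hd0.ne' ha0.ne', Nat.factorization_mul hd0.ne' hb0.ne',
      Finsupp.add_apply, Finsupp.add_apply] at e1
    rw [hb, hc, Nat.factorization_mul hd0.ne' hb0.ne', Nat.factorization_mul hd0.ne' hc0.ne',
      Finsupp.add_apply, Finsupp.add_apply] at e2
    push_cast at e1 e2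
    have e1 := add_left_cancel e1
    have e2 := add_left_cancel e2
    have hz : (a.factorization p : ZMod K) = 0 := by
      by_cases h3 : p ∣ a
      · have h4 : ¬ p ∣ b := fun h5 => hp.one_lt.ne' (Nat.dvd_one.1 (hcop ▸ Nat.dvd_gcd h3 h5))
        rw [e1, Nat.factorization_eq_zero_of_not_dvd h4]
        simp
      · rw [Nat.factorization_eq_zero_of_not_dvd h3]
        simp
    refine ⟨(ZMod.natCast_eq_zero_iff _ _).1 hz, (ZMod.natCast_eq_zero_iff _ _).1 (e1 ▸ hz),
      (ZMod.natCast_eq_zero_iff _ _).1 (e2 ▸ e1 ▸ hz)⟩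
  refine ⟨d, a, b, c, hd0, ha0, hb0, hc0, hcop, hsq, ?_, ?_, hexp, ?_⟩
  · rw [← ha, ← hb]
    exact congrArg Prod.fst h1
  · rw [← hb, ← hc]
    exact congrArg Prod.fst h2
  · intro hK5
    have q2 := pow_dvd_aux (K := K) Nat.prime_two (dvd_aux hsq (Or.inl rfl)) ha0 hb0 hc0
      (hexp 2 Nat.prime_two (by omega)).1 (hexp 2 Nat.prime_two (by omega)).2.1
      (hexp 2 Nat.prime_two (by omega)).2.2
    have q3 := pow_dvd_aux (K := K) Nat.prime_three (dvd_aux hsq (Or.inr (Or.inl rfl))) ha0 hb0 hc0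
      (hexp 3 Nat.prime_three (by omega)).1 (hexp 3 Nat.prime_three (by omega)).2.1
      (hexp 3 Nat.prime_three (by omega)).2.2
    have q5 := pow_dvd_aux (K := K) Nat.prime_five (dvd_aux hsq (Or.inr (Or.inr rfl))) ha0 hb0 hc0
      (hexp 5 Nat.prime_five (by omega)).1 (hexp 5 Nat.prime_five (by omega)).2.1
      (hexp 5 Nat.prime_five (by omega)).2.2
    have h6 : 6 ^ K ∣ a * b * c := by
      have := Nat.Coprime.mul_dvd_of_dvd_of_dvd (Nat.Coprime.pow K K (by norm_num : Nat.Coprime 2 3))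
        q2 q3
      rwa [← mul_pow] at this
    have := Nat.Coprime.mul_dvd_of_dvd_of_dvd (Nat.Coprime.pow K K (by norm_num : Nat.Coprime 6 5))
      h6 q5
    rwa [← mul_pow] at this

/-- Compactness. -/
lemma compact {𝒜 : Set (Finset ℕ)} (h : PartitionRegular 𝒜) (r : ℕ) :
    ∃ N : ℕ, ∀ c : ℕ → Fin r, ∃ A ∈ 𝒜, (∀ a ∈ A, a ≤ N) ∧ Mono c A := by
  by_contra hcon
  push Not at hcon
  choose c hc using hcon
  let 𝒰 : Ultrafilter ℕ := hyperfilter ℕ
  have hlim : ∀ n : ℕ, ∃ κ : Fin r, ∀ᶠ N in (𝒰 : Filter ℕ), c N n = κ := by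
    intro n
    have h1 : ∀ᶠ N in (𝒰 : Filter ℕ), ∃ κ : Fin r, c N n = κ :=
      Eventually.of_forall fun N => ⟨_, rfl⟩
    exact (Ultrafilter.eventually_exists_iff).1 h1
  choose c0 hc0 using hlim
  obtain ⟨A, hA, hm⟩ := h.2 r c0
  have h1 : ∀ᶠ N in (𝒰 : Filter ℕ), ∀ a ∈ A, c N a = c0 a :=
    (Finset.eventually_all A).2 fun a _ => hc0 a
  have h2 : ∀ᶠ N in (𝒰 : Filter ℕ), A.sup id ≤ N := by
    have : ∀ᶠ N in (atTop : Filter ℕ), A.sup id ≤ N := eventually_ge_atTop _
    exact Nat.hyperfilter_le_atTop this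
  obtain ⟨N, h3, h4⟩ := (h1.and h2).exists
  refine hc N A hA (fun a ha => (Finset.le_sup (f := id) ha).trans h4) ?_
  intro a ha b hb
  rw [h3 a ha, h3 b hb]
  exact hm a ha b hb

/-- The product of two partition regular families. -/
lemma product_regular {𝒜 ℬ : Set (Finset ℕ)} (hA : PartitionRegular 𝒜) (hB : PartitionRegular ℬ)
    (r : ℕ) (c : ℕ → Fin r) :
    ∃ A ∈ 𝒜, ∃ B ∈ ℬ, ∀ a ∈ A, ∀ b ∈ B, ∀ a' ∈ A, ∀ b' ∈ B, c (a * b) = c (a' * b') := by
  obtain ⟨N, hN⟩ := compact hA r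
  let e : (Fin (N + 1) → Fin r) ≃ Fin (r ^ (N + 1)) := finFunctionFinEquiv
  obtain ⟨B, hB1, hB2⟩ := hB.2 (r ^ (N + 1)) (fun n => e (fun j => c (j * n)))
  obtain ⟨b0, hb0⟩ := (hB.1 B hB1).1
  obtain ⟨A, hA1, hA2, hA3⟩ := hN (fun j => c (j * b0))
  have key : ∀ a ∈ A, ∀ b ∈ B, c (a * b) = c (a * b0) := by
    intro a ha b hb
    have h1 := e.injective (hB2 b hb b0 hb0)
    exact congrFun h1 ⟨a, Nat.lt_succ_of_le (hA2 a ha)⟩
  refine ⟨A, hA1, B, hB1, fun a ha b hb a' ha' b' hb' => ?_⟩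
  rw [key a ha b hb, key a' ha' b' hb']
  exact hA3 a ha a' ha'

/-- Step (2). -/
lemma products_of_regular {𝒯 : Set (Finset ℕ)} (h : PartitionRegular 𝒯) {𝒮 : Set (Finset ℕ)}
    (hS : PartitionRegular 𝒮) (k : ℕ) :
    ∀ (r : ℕ) (c : ℕ → Fin r), ∃ T : Fin k → Finset ℕ, (∀ i, T i ∈ 𝒯) ∧ ∃ S ∈ 𝒮,
      ∀ m ∈ products T S, ∀ n ∈ products T S, c m = c n := by
  classical
  induction k with
  | zero =>
    intro r c
    obtain ⟨S, h1, h2⟩ := hS.2 r c
    refine ⟨fun i => i.elim0, fun i => i.elim0, S, h1, ?_⟩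
    rintro _ ⟨t, s, _, hs, rfl⟩ _ ⟨t', s', _, hs', rfl⟩
    simpa using h2 s hs s' hs'
  | succ k ih =>
    intro r c
    -- the family of products for `k`
    let ℬ : Set (Finset ℕ) := {B | ∃ (T : Fin k → Finset ℕ) (S : Finset ℕ), (∀ i, T i ∈ 𝒯) ∧
      S ∈ 𝒮 ∧ (B : Set ℕ) = products T S}
    have hTpos : ∀ T ∈ 𝒯, ∀ t ∈ T, 0 < t := fun T hT => (h.1 T hT).2
    have hTne : ∀ T ∈ 𝒯, T.Nonempty := fun T hT => (h.1 T hT).1
    have hfin : ∀ (T : Fin k → Finset ℕ) (S : Finset ℕ), (products T S).Finite := by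
      intro T S
      have h1 : (Set.image2 (fun (t : Fin k → ℕ) (s : ℕ) => (∏ i, t i) * s)
          (Set.pi Set.univ fun i => (T i : Set ℕ)) (S : Set ℕ)).Finite :=
        Set.Finite.image2 _ (Set.Finite.pi fun i => (T i).finite_toSet) S.finite_toSet
      refine h1.subset ?_
      rintro _ ⟨t, s, ht, hs, rfl⟩
      exact ⟨t, fun i _ => ht i, s, hs, rfl⟩
    have hBr : PartitionRegular ℬ := by
      refine ⟨?_, fun r c => ?_⟩
      · rintro B ⟨T, S, hT, hSS, hB⟩
        constructor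
        · choose t ht using fun i => hTne (T i) (hT i)
          obtain ⟨s, hs⟩ := (hS.1 S hSS).1
          have : (∏ i, t i) * s ∈ (B : Set ℕ) := hB ▸ ⟨t, s, ht, hs, rfl⟩
          exact ⟨_, this⟩
        · intro b hb
          have hb' : b ∈ products T S := hB ▸ hb
          obtain ⟨t, s, ht, hs, rfl⟩ := hb'
          exact Nat.mul_pos (Finset.prod_pos fun i _ => hTpos _ (hT i) _ (ht i))
            ((hS.1 S hSS).2 s hs)
      · obtain ⟨T, hT, S, hSS, hm⟩ := ih r c
        refine ⟨(hfin T S).toFinset, ⟨T, S, hT, hSS, by simp⟩, ?_⟩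
        intro a ha b hb
        exact hm a (by simpa using ha) b (by simpa using hb)
    obtain ⟨A, hA, B, ⟨T, S, hT, hSS, hB⟩, hm⟩ := product_regular h hBr r c
    refine ⟨Fin.cons A T, ?_, S, hSS, ?_⟩
    · intro i
      refine Fin.cases ?_ (fun j => ?_) i
      · exact hA
      · exact hT j
    · rintro _ ⟨t, s, ht, hs, rfl⟩ _ ⟨t', s', ht', hs', rfl⟩
      rw [Fin.prod_univ_succ, Fin.prod_univ_succ, mul_assoc, mul_assoc]
      have e1 : (∏ i : Fin k, t i.succ) * s ∈ B := by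
        have : (∏ i : Fin k, t i.succ) * s ∈ (B : Set ℕ) :=
          hB ▸ ⟨fun i => t i.succ, s, fun i => by simpa using ht i.succ, hs, rfl⟩
        exact this
      have e2 : (∏ i : Fin k, t' i.succ) * s' ∈ B := by
        have : (∏ i : Fin k, t' i.succ) * s' ∈ (B : Set ℕ) :=
          hB ▸ ⟨fun i => t' i.succ, s', fun i => by simpa using ht' i.succ, hs', rfl⟩
        exact this
      exact hm _ (by simpa using ht 0) _ e1 _ (by simpa using ht' 0) _ e2

/-- Q1 (partition regularity of the Pythagorean triples) is equivalent to: for every `K ≥ 1`, every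
partition regular family `𝒮` of finite sets of positive integers and every `k`, every finite colouring
`c` of the positive integers has `k` Pythagorean triples `T_1, …, T_k` with the shapes described in
`Triples K` and a member `S` of `𝒮` such that all products `t_1 ⋯ t_k s`, `t_i ∈ T_i`, `s ∈ S`, have
the same colour. -/
theorem result :
    (∀ (r : ℕ) (c : ℕ → Fin r), ∃ x y z : ℕ, 0 < x ∧ 0 < y ∧ 0 < z ∧ x ^ 2 + y ^ 2 = z ^ 2 ∧
      c x = c y ∧ c y = c z) ↔
    ∀ K : ℕ, 1 ≤ K → ∀ 𝒮 : Set (Finset ℕ), PartitionRegular 𝒮 → ∀ (k r : ℕ) (c : ℕ → Fin r),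
      ∃ T : Fin k → Finset ℕ, (∀ i, T i ∈ Triples K) ∧ ∃ S ∈ 𝒮,
        ∀ m ∈ products T S, ∀ n ∈ products T S, c m = c n := by
  classical
  constructor
  · intro h K hK 𝒮 hS k r c
    refine products_of_regular (𝒯 := Triples K) ⟨?_, fun r c => ?_⟩ hS k r c
    · rintro T ⟨d, x, y, z, hd, hx, hy, hz, _, _, _, _, rfl⟩
      refine ⟨⟨d * x, by simp⟩, fun s hs => ?_⟩
      simp only [Finset.mem_insert, Finset.mem_singleton] at hs
      rcases hs with rfl | rfl | rfl <;> exact Nat.mul_pos hd (by assumption)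
    · obtain ⟨d, x, y, z, hd, hx, hy, hz, hcop, he, h1, h2, h3, h4⟩ := shapes_of_q1 h K hK r c
      refine ⟨{d * x, d * y, d * z}, ⟨d, x, y, z, hd, hx, hy, hz, hcop, he, h3, h4, rfl⟩, ?_⟩
      intro a ha b hb
      simp only [Finset.mem_insert, Finset.mem_singleton] at ha hb
      rcases ha with rfl | rfl | rfl <;> rcases hb with rfl | rfl | rfl <;>
        simp [h1, h2]
  · intro h r c
    have hr : PartitionRegular {S : Finset ℕ | ∃ n : ℕ, 0 < n ∧ S = {n}} := by
      refine ⟨?_, fun r c => ⟨{1}, ⟨1, one_pos, rfl⟩, ?_⟩⟩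
      · rintro S ⟨n, hn, rfl⟩
        exact ⟨by simp, by simpa using hn⟩
      · intro a ha b hb
        simp only [Finset.mem_singleton] at ha hb
        rw [ha, hb]
    obtain ⟨T, hT, S, ⟨n, hn, rfl⟩, hm⟩ := h 1 le_rfl _ hr 1 r c
    obtain ⟨d, x, y, z, hd, hx, hy, hz, _, he, _, _, hT0⟩ := hT 0
    have hmem : ∀ w ∈ T 0, w * n ∈ products T {n} := by
      intro w hw
      refine ⟨fun _ => w, n, fun i => ?_, by simp, by simp⟩
      rw [Subsingleton.elim i 0]
      exact hw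
    refine ⟨d * x * n, d * y * n, d * z * n, Nat.mul_pos (Nat.mul_pos hd hx) hn,
      Nat.mul_pos (Nat.mul_pos hd hy) hn, Nat.mul_pos (Nat.mul_pos hd hz) hn, ?_, ?_, ?_⟩
    · rw [mul_pow, mul_pow, mul_pow, mul_pow, mul_pow, mul_pow, ← add_mul, ← mul_add, he]
    · exact hm _ (hmem (d * x) (by simp [hT0])) _ (hmem (d * y) (by simp [hT0]))
    · exact hm _ (hmem (d * y) (by simp [hT0])) _ (hmem (d * z) (by simp [hT0]))

end Pool.Agent.Results.MP_0f91f8_co.PerfectPowerShapes
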